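import Pool.Agent.Results.MP_9916e0_co.LinearThreshold
import Pool.Agent.Y812.MB.Num

/-!
# The degree threshold in the Maker-Breaker spanning tree game: `n / 10^11 ≤ d(n) ≤ n/2 + √(n log n)`

`d(n)` is the largest `d` such that Maker (moving second) wins the (1:1) tree embedding game on
`E(K_n)` for every `n`-vertex tree of maximum degree at most `d`. We show
`n / 10 ^ 11 ≤ d(n) ≤ n / 2 + √(n log n)` for all large `n`; more precisely Breaker prevents a
copy of every graph on `n` vertices (every tree, in particular) which has a vertex of degree at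
least `n / 2 + √(n log n)`.

The lower bound is the one of the file `LinearThreshold`. The upper bound is a potential argument:
with `δ = √(log n / n)` Breaker always claims the free edge `uv` which maximises `φ(u) + φ(v)`,
where `φ(v) = (1 + δ)^(number of Maker's edges at v) (1 - δ)^(number of Breaker's edges at v)`;
then the sum of `φ(v)` over all vertices is at most `n` at every position in which Breaker is to
move.
-/

set_option autoImplicit false

namespace Pool.Agent.Results.MP_9916e0_co.HalfUpperBound

open Pool.Agent.TH451.MB Pool.Agent.Results.MP_9916e0_co.LinearThreshold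

open Classical in
/-- **Theorem.** For all large `n` the degree threshold `d(n)` of the spanning tree game satisfies
`n / 10 ^ 11 ≤ d(n) ≤ n / 2 + √(n log n)`; and Maker does not win the game of `T`, for any graph
`T` on `n` vertices with a vertex of degree at least `n / 2 + √(n log n)`. -/
theorem result : ∃ n₀ : ℕ, ∀ n ≥ n₀,
    (∃ d : ℕ, IsGreatest {k : ℕ | MakerWinsAllTrees n k} d ∧
      (n : ℝ) / 10 ^ 11 ≤ d ∧ (d : ℝ) ≤ n / 2 + Real.sqrt (n * Real.log n)) ∧
    ∀ T : SimpleGraph (Fin n),
      (∃ v, (n : ℝ) / 2 + Real.sqrt (n * Real.log n) ≤ T.degree v) → ¬ MakerWins T := by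
  obtain ⟨n₀, h⟩ := LinearThreshold.result
  refine ⟨max n₀ 1024, fun n hn => ?_⟩
  have hn0 : n₀ ≤ n := le_trans (le_max_left _ _) hn
  have hn1 : 1024 ≤ n := le_trans (le_max_right _ _) hn
  constructor
  · obtain ⟨d, hd, h1, h2⟩ := h n hn0
    refine ⟨d, hd, h1, ?_⟩
    by_contra hcon
    push Not at hcon
    have hnR : (1024 : ℝ) ≤ n := by exact_mod_cast hn1
    have hd2 : (2 : ℝ) ≤ d := by
      have := Real.sqrt_nonneg ((n : ℝ) * Real.log n)
      linarith
    obtain ⟨T, hT, hTd, v, hv⟩ := Pool.Agent.Y812.MB.exists_tree (n := n) (D := d) (by omega)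
      (by exact_mod_cast hd2) (by omega)
    have h3 : MakerWins T := hd.1 T hT (fun v => hTd v)
    refine Pool.Agent.Y812.MB.not_wins_of_degree hn1 T v ?_ h3
    have h4 : d ≤ T.degree v + 1 := by
      have : d - 1 ≤ T.degree v := hv
      omega
    have h5 : (d : ℝ) ≤ T.degree v + 1 := by exact_mod_cast h4
    linarith
  · rintro T ⟨v, hv⟩
    exact Pool.Agent.Y812.MB.not_wins_of_degree hn1 T v (by linarith)

end Pool.Agent.Results.MP_9916e0_co.HalfUpperBound
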